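import Pool.Agent.Helper80.EC_D.Goals

/-!
# MP_ecc237_nt, Part D (derivative of `𝒫`), packet DW
-/

set_option autoImplicit false

open Filter Topology

namespace EC237.PD.PkDW

theorem summable_sq : Summable (fun m : ℤ => 1 / (1 + |(m:ℝ)|) ^ 2) := by
  refine Summable.of_norm_bounded_eventually (Real.summable_one_div_int_pow.2 one_lt_two) ?_
  have h2 : ∀ᶠ n : ℤ in cofinite, n ≠ 0 := by
    rw [eventually_cofinite]
    simp
  refine h2.mono fun n hn => ?_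
  have hn1 : (0:ℝ) < |(n:ℝ)| := by
    rw [abs_pos]
    exact_mod_cast hn
  rw [Real.norm_of_nonneg (by positivity), ← sq_abs (n:ℝ)]
  refine one_div_le_one_div_of_le (by positivity) ?_
  exact pow_le_pow_left₀ (abs_nonneg _) (by linarith) 2

theorem tendsto_inv (a : ℤ) : Tendsto (fun m : ℤ => 1 / (1 + |((a + m : ℤ):ℝ)|)) cofinite (𝓝 0) := by
  have h1 : Summable (fun m : ℤ => 1 / (1 + |((a + m : ℤ):ℝ)|) ^ 2) :=
    (Equiv.summable_iff (Equiv.addLeft a)).2 summable_sq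
  have h2 := (Real.continuous_sqrt.tendsto 0).comp h1.tendsto_cofinite_zero
  rw [Real.sqrt_zero] at h2
  refine h2.congr fun m => ?_
  show Real.sqrt (1 / (1 + |((a + m : ℤ):ℝ)|) ^ 2) = _
  rw [Real.sqrt_div zero_le_one, Real.sqrt_one, Real.sqrt_sq (by positivity)]

theorem summ (h4 : EC237.N4) (h8 : EC237.N8) (y : ℝ) (hy : 0 < y) (r q a : ℤ)
    (ha : (a - (q - r)) % 3 = 0) : Summable (fun m : ℤ => V y r m - V y q (a + m)) := by
  obtain ⟨C, hC, hN⟩ := h8 y hy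
  have h1 : Summable (fun m : ℤ => C * (1 + |(a:ℝ)|) ^ 2 * (1 / (1 + |(m:ℝ)|) ^ 2)) :=
    summable_sq.mul_left _
  refine Summable.of_norm_bounded h1 fun m => ?_
  by_cases hm : (m - r) % 3 = 0
  · have hm' : (a + m - q) % 3 = 0 := by omega
    have h2 := hN r m 0 q (a + m) 0 (by norm_num) (by norm_num) hm hm'
    refine h2.trans ?_
    have hcast : ((a + m : ℤ) : ℝ) = (a:ℝ) + (m:ℝ) := by push_cast; ring
    rw [hcast]
    have ht : |(|(m:ℝ)| - |(a:ℝ) + m|)| ≤ |(a:ℝ)| := by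
      have := abs_abs_sub_abs_le_abs_sub (m:ℝ) ((a:ℝ) + m)
      have e : (m:ℝ) - ((a:ℝ) + m) = -(a:ℝ) := by ring
      rwa [e, abs_neg] at this
    have hs : 1 + |(m:ℝ)| ≤ (1 + |(a:ℝ)|) * (1 + |(a:ℝ) + m|) := by
      have h3 : |(m:ℝ)| ≤ |(a:ℝ) + m| + |(a:ℝ)| := by
        have := abs_sub ((a:ℝ) + m) (a:ℝ)
        have e : (a:ℝ) + m - a = m := by ring
        rwa [e] at this
      nlinarith [abs_nonneg (a:ℝ), abs_nonneg ((a:ℝ) + m)]
    have hm0 : 0 < 1 + |(m:ℝ)| := by positivity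
    have ha0 : 0 < 1 + |(a:ℝ)| := by positivity
    have ham0 : 0 < 1 + |(a:ℝ) + m| := by positivity
    rw [div_le_iff₀ (by positivity)]
    have e1 : C * (1 + |(a:ℝ)|) ^ 2 * (1 / (1 + |(m:ℝ)|) ^ 2) *
        ((1 + |(m:ℝ)|) * (1 + |(a:ℝ) + m|)) =
        C * (1 + |(a:ℝ)|) * (((1 + |(a:ℝ)|) * (1 + |(a:ℝ) + m|)) / (1 + |(m:ℝ)|)) := by
      field_simp
    rw [e1]
    have h5 : 1 ≤ ((1 + |(a:ℝ)|) * (1 + |(a:ℝ) + m|)) / (1 + |(m:ℝ)|) :=
      (one_le_div hm0).2 hs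
    have h6 : C * (1 + |(|(m:ℝ)| - |(a:ℝ) + m|)|) ≤ C * (1 + |(a:ℝ)|) :=
      mul_le_mul_of_nonneg_left (by linarith) hC.le
    calc C * (1 + |(|(m:ℝ)| - |(a:ℝ) + m|)|) ≤ C * (1 + |(a:ℝ)|) * 1 := by rw [mul_one]; exact h6
      _ ≤ _ := mul_le_mul_of_nonneg_left h5 (by positivity)
  · have hm' : (a + m - q) % 3 ≠ 0 := by omega
    have e1 : V y r m = 0 := ((h4 y hy r m 0).2.2.2.2.2.2.2.2.2.2.2 hm 0).1
    have e2 : V y q (a + m) = 0 := ((h4 y hy q (a + m) 0).2.2.2.2.2.2.2.2.2.2.2 hm' 0).1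
    rw [e1, e2, sub_zero, norm_zero]
    positivity

theorem step (h4 : EC237.N4) (h7 : EC237.N7) (h8 : EC237.N8) (ht : G_DTEL) (y : ℝ) (hy : 0 < y)
    (r q a : ℤ) (ha : (a - (q - r)) % 3 = 0) : Wd y r q a = Wd y r q (a + 3) := by
  have s1 := summ h4 h8 y hy r q a ha
  have s2 := summ h4 h8 y hy r q (a + 3) (by omega)
  have e : (fun m : ℤ => V y q (a + m) - V y q (a + (m + 3))) =
      fun m => (V y r m - V y q (a + 3 + m)) - (V y r m - V y q (a + m)) := by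
    funext m
    have : a + (m + 3) = a + 3 + m := by ring
    rw [this]
    ring
  have s3 : Summable (fun m : ℤ => V y q (a + m) - V y q (a + (m + 3))) := by
    rw [e]
    exact s2.sub s1
  have hf : Tendsto (fun m : ℤ => V y q (a + m)) cofinite (𝓝 0) := by
    obtain ⟨C, c, hC, -, hN⟩ := h7 y hy
    refine squeeze_zero_norm (a := fun m : ℤ => C * (1 / (1 + |((a + m : ℤ):ℝ)|))) (fun m => ?_) ?_
    · have := (hN q (a + m) 0 (by norm_num)).1
      rw [mul_one_div]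
      exact this
    · have := (tendsto_inv a).const_mul C
      rwa [mul_zero] at this
  have h0 := ht (fun m => V y q (a + m)) hf s3
  have h1 : (∑' m : ℤ, (V y q (a + m) - V y q (a + (m + 3)))) =
      Wd y r q (a + 3) - Wd y r q a := by
    rw [e, s2.tsum_sub s1]
    rfl
  rw [h1] at h0
  linear_combination -h0

theorem thm (h4 : EC237.N4) (h7 : EC237.N7) (h8 : EC237.N8) (ht : G_DTEL) : EC237.PD.G_DW := by
  intro y hy r q a b ha hb
  refine ⟨summ h4 h8 y hy r q a ha, ?_⟩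
  have key : ∀ k : ℤ, Wd y r q (a + 3 * k) = Wd y r q a := by
    intro k
    induction k using Int.induction_on with
    | zero => rw [mul_zero, add_zero]
    | succ i ih =>
      have h := step h4 h7 h8 ht y hy r q (a + 3 * (i:ℤ)) (by omega)
      have e : a + 3 * ((i:ℤ) + 1) = a + 3 * (i:ℤ) + 3 := by ring
      rw [e, ← h, ih]
    | pred i ih =>
      have h := step h4 h7 h8 ht y hy r q (a + 3 * (-(i:ℤ) - 1)) (by omega)
      have e : a + 3 * (-(i:ℤ) - 1) + 3 = a + 3 * (-(i:ℤ)) := by ring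
      rw [h, e, ih]
  obtain ⟨k, hk⟩ : ∃ k : ℤ, b = a + 3 * k := ⟨(b - a) / 3, by omega⟩
  rw [hk, key k]

end EC237.PD.PkDW
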